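import Pool.Agent.TH891.PI.M8

set_option autoImplicit false

namespace Pool.Agent.Results.MP_991e92_nt.PatternsOfPrimitiveRoots

open Finset

/-- `k` consecutive primes `p_s < ... < p_{s+k-1}` in an interval of length `H`, such that for every `1 ≤ r ≤ R`
and `j < k` the number `B m^r` is a primitive root modulo `p_{s+j}` if and only if `r` is even or `ε j` is true. -/
def Pat (k H R : ℕ) (B : ℤ) (ε : Fin k → Bool) (m s : ℕ) : Prop :=
  ∀ j : Fin k, Nat.nth Nat.Prime (s + j) ≤ Nat.nth Nat.Prime s + H ∧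
    ∀ r : ℕ, 1 ≤ r → r ≤ R →
      (orderOf ((B * (m : ℤ) ^ r : ℤ) : ZMod (Nat.nth Nat.Prime (s + j))) = Nat.nth Nat.Prime (s + j) - 1 ↔
        (Even r ∨ ε j = true))

/-- full order from the local conditions -/
lemma order_full {p : ℕ} (hp : p.Prime) {B : ZMod p} (hB : B ≠ 0) (h2 : B ^ ((p - 1) / 2) ≠ 1)
    (h3 : ∀ q : ℕ, q.Prime → q ∣ (p - 1) → q ≠ 2 → B ^ ((p - 1) / q) ≠ 1) : orderOf B = p - 1 := by
  have := Fact.mk hp
  apply orderOf_eq_of_pow_and_pow_div_prime
  · have := hp.two_le; omega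
  · exact ZMod.pow_card_sub_one_eq_one hB
  · intro q hq hqd
    by_cases h : q = 2
    · rw [h]; exact h2
    · exact h3 q hq hqd h

/-- the class modulo `2|D|` -/
lemma class_D {D : ℤ} (hD : Squarefree D) (hD4 : D % 4 = 1) (hD1 : D ≠ 1) :
    ∃ b : ℕ, b.Coprime (2 * D.natAbs) ∧ 1 ≤ b ∧ Nat.gcd (b - 1) (2 * D.natAbs) = 2 ∧ jacobiSym b D.natAbs = -1 := by
  obtain ⟨c, hc1, hc2, hc3⟩ := Pool.Agent.TH891.PR.exists_class hD hD4 hD1 (y := D.natAbs + 2) (by omega) (by omega)
  have hD0 : 0 < D.natAbs := by omega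
  have hle : ∀ q : ℕ, q.Prime → q ∣ 2 * D.natAbs → q ≤ D.natAbs + 2 := by
    intro q hq hqd
    rcases hq.dvd_mul.1 hqd with h | h
    · have := Nat.le_of_dvd (by norm_num) h
      omega
    · have := Nat.le_of_dvd hD0 h
      omega
  have hodd : ¬ 2 ∣ c := hc1 2 Nat.prime_two (by omega)
  have hc0 : 1 ≤ c := by
    rcases Nat.eq_zero_or_pos c with h | h
    · rw [h] at hodd; norm_num at hodd
    · exact h
  have hDodd : ¬ 2 ∣ D.natAbs := by omega
  have hsq : Squarefree (2 * D.natAbs) := by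
    rw [Nat.squarefree_mul ((Nat.Prime.coprime_iff_not_dvd Nat.prime_two).2 hDodd)]
    exact ⟨Nat.prime_two.squarefree, Int.squarefree_natAbs.2 hD⟩
  refine ⟨c, ?_, hc0, ?_, hc3⟩
  · apply Nat.coprime_of_dvd
    intro q hq h1 h2
    exact hc1 q hq (hle q hq h2) h1
  · have hgsq : Squarefree (Nat.gcd (c - 1) (2 * D.natAbs)) := hsq.squarefree_of_dvd (Nat.gcd_dvd_right _ _)
    have h2g : 2 ∣ Nat.gcd (c - 1) (2 * D.natAbs) := by
      apply Nat.dvd_gcd
      · omega
      · exact Dvd.intro _ rfl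
    apply Nat.dvd_antisymm _ h2g
    have h3 : (Nat.gcd (c - 1) (2 * D.natAbs)).primeFactors ⊆ {2} := by
      intro q hq
      rw [Nat.mem_primeFactors] at hq
      have h4 := hle q hq.1 (hq.2.1.trans (Nat.gcd_dvd_right _ _))
      have h5 : c ≡ 1 [MOD q] := ((Nat.modEq_iff_dvd' hc0).2 (hq.2.1.trans (Nat.gcd_dvd_left _ _))).symm
      rw [mem_singleton]
      exact hc2 q hq.1 h4 h5
    rw [← Nat.prod_primeFactors_of_squarefree hgsq]
    refine (Finset.prod_dvd_prod_of_subset _ _ _ h3).trans ?_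
    rw [prod_singleton]

open Classical in
/-- Every pattern of `D b² m^r` being or not being a primitive root along consecutive primes. -/
theorem result (k : ℕ) : ∃ θ c : ℝ, θ < 1 ∧ 0 < c ∧ ∃ κ : ℕ, ∀ D : ℤ, Squarefree D → D % 4 = 1 → D ≠ 1 → ∀ R : ℕ,
    ∃ H N₀ : ℕ, ∀ N : ℕ, N₀ ≤ N → ∀ b : ℤ, b ≠ 0 → b.natAbs ≤ N →
      ∃ Z ⊆ Icc 1 N, (#Z : ℝ) ≤ (N : ℝ) ^ θ ∧ ∀ m ∈ Icc 1 N, m ∉ Z →
        ∀ ε : Fin k → Bool, ∀ x : ℕ, N ≤ x → Real.log x ≤ (Real.log N) ^ (1 + c) →
          (x : ℝ) / Real.log x ^ κ ≤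
            (#{s ∈ range (7 * x) | x < Nat.nth Nat.Prime s ∧ Nat.nth Nat.Prime s ≤ 7 * x ∧
              Pat k H R (D * b ^ 2) ε m s} : ℝ) := by
  obtain ⟨θ, c, hθ, hc, κ, h⟩ := Pool.Agent.TH891.PI.final k
  refine ⟨θ, c, hθ, hc, κ, fun D hD hD4 hD1 R => ?_⟩
  obtain ⟨c₀, hcop, hc0, hg, hJ⟩ := class_D hD hD4 hD1
  have hD0 : 0 < D.natAbs := by omega
  obtain ⟨H, N₀, h⟩ := h (2 * D.natAbs) c₀ (by omega) (Dvd.intro _ rfl) hcop hc0 (R + 1) R
  refine ⟨H, max N₀ (D.natAbs + 2), fun N hN b hb hbN => ?_⟩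
  have hN2 : D.natAbs + 2 ≤ N := (le_max_right _ _).trans hN
  have hBp : ∀ p : ℕ, p.Prime → N < p → ¬ (p : ℤ) ∣ D * b ^ 2 := by
    intro p hp hNp hd
    have hpI : Prime (p : ℤ) := Nat.prime_iff_prime_int.1 hp
    rcases hpI.dvd_or_dvd hd with h1 | h1
    · have h2 := Nat.le_of_dvd hD0 (Int.natCast_dvd.1 h1)
      omega
    · have h2 := Nat.le_of_dvd (Int.natAbs_pos.2 hb) (Int.natCast_dvd.1 (hpI.dvd_of_dvd_pow h1))
      omega
  obtain ⟨Z, hZN, hZ, h⟩ := h N ((le_max_left _ _).trans hN) ((Icc 1 R).image (fun r => (D * b ^ 2, r)))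
    (by
      refine card_image_le.trans ?_
      rw [Nat.card_Icc]; omega)
    (by
    intro Br hBr
    rw [mem_image] at hBr
    obtain ⟨r, hr, rfl⟩ := hBr
    rw [mem_Icc] at hr
    exact ⟨hr.1, by omega, hBp⟩)
  refine ⟨Z, hZN, hZ, fun m hm hmZ ε x hx1 hx2 => ?_⟩
  have h1 := h m hm hmZ (fun j => if ε j = true then 2 else 1) (by
    intro j
    rw [hg]
    split_ifs
    · exact dvd_rfl
    · exact one_dvd _) x hx1 hx2 (fun s => Pat k H R (D * b ^ 2) ε m s) (by
    intro s hxs hs j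
    obtain ⟨g1, g2, g3, g4, g5⟩ := hs j
    refine ⟨g1, ?_⟩
    have hpp : (Nat.nth Nat.Prime (s + j)).Prime := Nat.prime_nth_prime _
    have hmono : Nat.nth Nat.Prime s ≤ Nat.nth Nat.Prime (s + j) :=
      (Nat.nth_monotone Nat.infinite_setOfPred_prime) (by omega)
    have hNp : N < Nat.nth Nat.Prime (s + j) := by omega
    obtain ⟨p, hp⟩ : ∃ p, p = Nat.nth Nat.Prime (s + j) := ⟨_, rfl⟩
    rw [← hp] at g2 g3 g4 g5 hpp hNp ⊢
    have := Fact.mk hpp
    rw [hg] at g3 g4 g5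
    have hp2' : p % 2 = 1 := by
      rcases hpp.eq_two_or_odd with h | h
      · omega
      · exact h
    have hp2 : (p - 1) / 2 = p / 2 := by omega
    have hpodd : (p - 1) / 2 * 2 = p - 1 := by omega
    have hBne : ((D * b ^ 2 : ℤ) : ZMod p) ≠ 0 := by
      intro h0
      exact hBp p hpp hNp ((ZMod.intCast_zmod_eq_zero_iff_dvd _ _).1 h0)
    have hbne : ((b : ℤ) : ZMod p) ≠ 0 := by
      intro h0
      apply hBne
      push_cast
      rw [h0]
      ring
    -- the quadratic character of the base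
    have hBhalf : ((D * b ^ 2 : ℤ) : ZMod p) ^ (p / 2) = -1 := by
      have e1 : ((D : ℤ) : ZMod p) ^ (p / 2) = -1 := by
        have h3 := legendreSym.eq_pow p D
        have h4 : legendreSym p D = -1 := by
          rw [jacobiSym.legendreSym.to_jacobiSym, Pool.Agent.TH891.PR.jacobi_flip hD4 (Nat.odd_iff.2 hp2'), ← hJ]
          apply jacobiSym.mod_left'
          have h5 : p ≡ c₀ [MOD D.natAbs] := g2.of_dvd (Dvd.intro_left _ rfl)
          exact Int.natCast_modEq_iff.2 h5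
        rw [h4] at h3
        push_cast at h3
        exact h3.symm
      have e2 : (((b : ℤ) : ZMod p) ^ 2) ^ (p / 2) = 1 := by
        rw [← pow_mul]
        have e3 : 2 * (p / 2) = p - 1 := by omega
        rw [e3]
        exact ZMod.pow_card_sub_one_eq_one hbne
      push_cast
      rw [mul_pow, e1, e2, mul_one]
    rw [mem_Icc] at hm
    have hm0 : (m : ZMod p) ≠ 0 := by
      intro h0
      rw [ZMod.natCast_eq_zero_iff] at h0
      have := Nat.le_of_dvd (by omega) h0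
      omega
    have hne : (-1 : ZMod p) ≠ 1 := by
      have : Fact (2 < p) := ⟨by omega⟩
      exact ZMod.neg_one_ne_one
    have hmhalf : (m : ZMod p) ^ (p / 2) = if ε j = true then 1 else -1 := by
      rw [← hp2]
      by_cases hε : ε j = true
      · rw [if_pos hε]
        have h5 := g4.1
        beta_reduce at h5
        rw [if_pos hε] at h5
        exact h5
      · rw [if_neg hε]
        have h5 := g4.2 2 (by
          unfold Pool.Agent.TH891.PI.La
          beta_reduce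
          rw [if_neg hε]
          exact Nat.mem_primeFactors.2 ⟨Nat.prime_two, by norm_num, by norm_num⟩)
        beta_reduce at h5
        rw [if_neg hε, one_mul] at h5
        rcases ZMod.pow_div_two_eq_neg_one_or_one p hm0 with h6 | h6
        · rw [← hp2] at h6
          exact absurd h6 h5
        · rw [← hp2] at h6
          exact h6
    intro r hr1 hrR
    have hB0 : ((D * b ^ 2 * (m : ℤ) ^ r : ℤ) : ZMod p) ≠ 0 := by
      rw [Int.cast_mul, Int.cast_pow (m : ℤ), Int.cast_natCast]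
      exact mul_ne_zero hBne (pow_ne_zero _ hm0)
    have hhalf : ((D * b ^ 2 * (m : ℤ) ^ r : ℤ) : ZMod p) ^ ((p - 1) / 2) = - (if ε j = true then 1 else -1) ^ r := by
      rw [Int.cast_mul, Int.cast_pow (m : ℤ), Int.cast_natCast, mul_pow, ← pow_mul, mul_comm r, pow_mul, hp2, hmhalf, hBhalf]
      ring
    have hodd : ∀ q : ℕ, q.Prime → q ∣ (p - 1) → q ≠ 2 →
        ((D * b ^ 2 * (m : ℤ) ^ r : ℤ) : ZMod p) ^ ((p - 1) / q) ≠ 1 := by
      intro q hq hqd hq2
      have h6 : q ∣ (p - 1) / 2 := by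
        rw [← hpodd] at hqd
        exact ((Nat.coprime_primes hq Nat.prime_two).2 hq2).dvd_of_dvd_mul_right hqd
      exact g5 (D * b ^ 2, r) (mem_image.2 ⟨r, mem_Icc.2 ⟨hr1, hrR⟩, rfl⟩) q hq h6
    constructor
    · intro h8
      by_contra h9
      push Not at h9
      obtain ⟨h9, h10⟩ := h9
      have h11 : ((D * b ^ 2 * (m : ℤ) ^ r : ℤ) : ZMod p) ^ ((p - 1) / 2) = 1 := by
        rw [hhalf, if_neg h10, (Nat.not_even_iff_odd.1 h9).neg_one_pow]
        ring
      have h12 := orderOf_dvd_of_pow_eq_one h11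
      rw [h8] at h12
      have := Nat.le_of_dvd (by omega) h12
      omega
    · intro h8
      apply order_full hpp hB0 _ hodd
      rw [hhalf]
      rcases h8 with h8 | h8
      · have h9 : (if ε j = true then (1 : ZMod p) else -1) ^ r = 1 := by
          split_ifs
          · exact one_pow r
          · exact h8.neg_one_pow
        rw [h9]
        exact hne
      · rw [if_pos h8, one_pow]
        exact hne)
  exact h1

end Pool.Agent.Results.MP_991e92_nt.PatternsOfPrimitiveRoots
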