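import Pool.Agent.TH891.PR.P6

set_option autoImplicit false

namespace Pool.Agent.Results.MP_991e92_nt.StringsOfConsecutivePrimes

open Finset

/-- The interval `(n, n + H]` contains at least `k` primes, and for every prime `p` in it and all
`m ∈ M` and even `0 < r ≤ R` the number `B m^r` is a primitive root modulo `p`. -/
def Str (k H : ℕ) (B : ℤ) (R : ℕ) (M : Finset ℕ) (n : ℕ) : Prop :=
  k ≤ #{p ∈ Ioc n (n + H) | p.Prime} ∧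
    ∀ p ∈ Ioc n (n + H), p.Prime → ∀ m ∈ M, ∀ r : ℕ, Even r → 0 < r → r ≤ R →
      orderOf ((B * (m : ℤ) ^ r : ℤ) : ZMod p) = p - 1

open Classical in
/-- Strings of consecutive primes in intervals of bounded length, all with the primitive root
`D b² m^r`, for all but `N^θ` of the multipliers `m ≤ N`. -/
theorem result (θ C : ℝ) (hθ : 1 / 2 < θ) (hθ1 : θ < 1) (hC : 1 < C) (hCθ : θ * (1 - θ) < C * (2 * θ - 1)) :
    ∃ c : ℝ, 0 < c ∧ ∀ k : ℕ, ∃ κ : ℕ, ∀ D : ℤ, Squarefree D → D % 4 = 1 → D ≠ 1 → ∀ R J : ℕ,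
      ∃ H N₀ : ℕ, ∀ N : ℕ, N₀ ≤ N → ∀ b : ℤ, b ≠ 0 → (b.natAbs : ℝ) ≤ (N : ℝ) ^ C →
        ∃ Z ⊆ Icc 1 N, (#Z : ℝ) ≤ (N : ℝ) ^ θ ∧ ∀ M ⊆ Icc 1 N \ Z, #M ≤ J →
          ∀ x : ℕ, (N : ℝ) ^ C ≤ x → Real.log x ≤ (Real.log N) ^ (1 + c) →
            (x : ℝ) / Real.log x ^ κ ≤ (#{n ∈ Ioc x (6 * x) | Str k H (D * b ^ 2) R M n} : ℝ) := by
  obtain ⟨c, hc, h⟩ := Pool.Agent.TH891.PR.main θ C hθ hθ1 hC hCθ
  refine ⟨c, hc, fun k => ?_⟩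
  obtain ⟨κ, h⟩ := h k
  refine ⟨κ, fun D hD hD4 hD1 R J => ?_⟩
  obtain ⟨H, N₀, h⟩ := h D hD hD4 hD1 R J
  refine ⟨H, N₀, fun N hN b hb hbC => ?_⟩
  obtain ⟨Z, hZN, hZ, h⟩ := h N hN b hb hbC
  refine ⟨Z, hZN, hZ, fun M hM hMJ x hx1 hx2 => ?_⟩
  refine (h M hM hMJ x hx1 hx2).trans ?_
  have hsub : (Ioc x (6 * x)).filter (fun n => Pool.Agent.TH891.PR.Gn k H (D * b ^ 2) R M n) ⊆
      (Ioc x (6 * x)).filter (fun n => Str k H (D * b ^ 2) R M n) := by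
    intro n hn
    rw [mem_filter] at hn ⊢
    refine ⟨hn.1, (Nat.le_succ k).trans hn.2.1, fun p hp hpp m hm r hr hr0 hrR => ?_⟩
    by_contra hne
    exact hn.2.2 p hp hpp m hm ⟨r, hr, hr0, hrR, hne⟩
  exact_mod_cast card_le_card hsub

end Pool.Agent.Results.MP_991e92_nt.StringsOfConsecutivePrimes
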