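import Mathlib
import Pool.Agent.TH893.BR.FamB
import Pool.Agent.W171.EP.IntRangeF

set_option autoImplicit false

/-! # The bases `B m ^ r`: the fixed base `B`, twisted by `r`-th powers, uniformly in `r`

Let `B` be an integer as in the problem: it is not a perfect power (so `B ≠ 0, 1, -1`) and its squarefree
part `D` satisfies `D ≡ 1 mod 4`.  For the primes `l ∣ r` the number `B m ^ r` is an `l`-th power residue
modulo `p` if and only if `B` is.  So the family interpolates between the average over all bases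
(`r = 1`) and the single base `B` (`r` divisible by `p - 1` for all `p ≤ x`).

Let `A = ∏_p (1 - 1 / (p (p - 1)))` be Artin's constant and let `δ D r` be `A` for odd `r` and
`(1 - μ(|D|) ∏_{q ∣ D} 1 / (q² - q - 1)) A`, the density of the problem for the base `B`, for even `r`.
Let `P B r m x` be the number of primes `p ≤ x` modulo which `B m ^ r` is a primitive root.

For all `η > 0`, `C > 1` there is `b > 0` such that for every such `B` and every `ε > 0` there is `δ > 0`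
such that for every `L` and all large `N`: for every set `E` of at most `N ^ b` positive exponents `r`,
each with at most `N ^ (1 / 4)` prime factors and with `∑_{l ∣ r, l > L} 1 / l ≤ δ` (sum over primes),
all but at most `η N` of the integers `1 ≤ m ≤ N` satisfy `|P B r m x - δ D r π(x)| ≤ ε π(x)` for EVERY
exponent `r ∈ E` and for EVERY `x` with `N ^ C ≤ x ≤ exp (N ^ b)`.

So for the even exponents the correction factor of the base `B` appears.

Libraries: helper401 (density theorem of Chebotarev), helper386, helper771, helper981 (large sieve,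
local counts), helper923 (theorem of Brun and Titchmarsh), helper171 (base `2`). -/

namespace Pool.Agent.Results.MP_991e92_nt.TwistedByPowers

open Finset Filter Classical
open Pool.Agent.W171.EP (badC intRangeF)
open Pool.Agent.W171.LG (Wr)
open Pool.Agent.TH893.BR (Bs datB datB_A datB_Q datB_Ac fam_int_B Idx)
open Pool.Agent.H771R4.SE (cntE Dat)

/-- the number of primes `p ≤ x` modulo which `B m ^ r` is a primitive root -/
noncomputable def P (B : ℤ) (r m x : ℕ) : ℕ :=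
  ((Finset.range (x + 1)).filter (fun p : ℕ => p.Prime ∧
    orderOf ((B * (m : ℤ) ^ r : ℤ) : ZMod p) = p - 1)).card

/-- Artin's constant -/
noncomputable def A : ℝ := ∏' p : Nat.Primes, (1 - 1 / (((p : ℕ) : ℝ) * (((p : ℕ) : ℝ) - 1)))

/-- the density: Artin's constant for odd `r`, the density of the problem for even `r` -/
noncomputable def δ (D : ℤ) (r : ℕ) : ℝ :=
  if Even r then (1 - ((ArithmeticFunction.moebius D.natAbs : ℤ) : ℝ) *
    ∏ q ∈ D.natAbs.primeFactors, (1 / ((q : ℝ) ^ 2 - (q : ℝ) - 1))) * A else A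

theorem result (η C : ℝ) (hη : 0 < η) (hC : 1 < C) :
    ∃ b : ℝ, 0 < b ∧ ∀ B D k : ℤ, B = D * k ^ 2 → Squarefree D → D % 4 = 1 →
      (∀ h : ℕ, 1 < h → ∀ c : ℤ, c ^ h ≠ B) →
      ∀ ε : ℝ, 0 < ε → ∃ δ₀ : ℝ, 0 < δ₀ ∧ ∀ L : ℕ, ∃ N₀ : ℕ, ∀ N : ℕ, N₀ ≤ N →
      ∀ E : Finset ℕ, (E.card : ℝ) ≤ (N : ℝ) ^ b →
        (∀ r ∈ E, 1 ≤ r ∧ (r.primeFactors.card : ℝ) ≤ (N : ℝ) ^ (1 / 4 : ℝ) ∧
          ∑ l ∈ r.primeFactors.filter (fun l : ℕ => L < l), (1 / (l : ℝ)) ≤ δ₀) →
        (((Finset.Icc 1 N).filter (fun m : ℕ => ∃ r ∈ E,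
          ∃ x : ℕ, ((N : ℝ) ^ C ≤ x ∧ (x : ℝ) ≤ Real.exp ((N : ℝ) ^ b)) ∧
            ε * (Nat.primeCounting x : ℝ) <
              |(P B r m x : ℝ) - δ D r * (Nat.primeCounting x : ℝ)|)).card : ℝ) ≤ η * N := by
  obtain ⟨b, hb, S, ⟨N₁, hS⟩, hall⟩ := intRangeF C hC (η / 2) (by positivity)
  refine ⟨b / 2, by positivity, fun B D k hB hD h4 hpow ε hε => ?_⟩
  have hk : k ≠ 0 := by
    rintro rfl
    exact hpow 2 one_lt_two 0 (by rw [hB]; ring)
  let s : Bs := ⟨B, D, k, hB, hD, h4, hk, hpow⟩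
  obtain ⟨δ1, hδ1, hfam1⟩ := fam_int_B s true C hC b S hall ε hε
  obtain ⟨δ0, hδ0, hfam0⟩ := fam_int_B s false C hC b S hall ε hε
  refine ⟨min δ1 δ0, lt_min hδ1 hδ0, fun L => ?_⟩
  obtain ⟨N₂, hN₂⟩ := hfam1 L
  obtain ⟨N₄, hN₄⟩ := hfam0 L
  have hpow : ∀ᶠ N : ℕ in atTop, 2 / η ≤ (N : ℝ) ^ (b / 2) :=
    ((tendsto_rpow_atTop (by positivity)).comp tendsto_natCast_atTop_atTop).eventually_ge_atTop _
  obtain ⟨N₃, hN₃⟩ := eventually_atTop.1 hpow
  refine ⟨max (max N₁ N₃) (max (max N₂ N₄) 1), fun N hN E hEc hE => ?_⟩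
  have hA1 : N₁ ≤ N := (le_max_left _ _).trans ((le_max_left _ _).trans hN)
  have hA3 : N₃ ≤ N := (le_max_right _ _).trans ((le_max_left _ _).trans hN)
  have hA2 : N₂ ≤ N := (le_max_left _ _).trans ((le_max_left _ _).trans
    ((le_max_right _ _).trans hN))
  have hA5 : N₄ ≤ N := (le_max_right _ _).trans ((le_max_left _ _).trans
    ((le_max_right _ _).trans hN))
  have hA4 : 1 ≤ N := (le_max_right _ _).trans ((le_max_right _ _).trans hN)
  have hN1 : (1 : ℝ) ≤ N := by exact_mod_cast hA4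
  have hN0 : (0 : ℝ) < N := by linarith
  have k1 := hS N hA1
  have k3 := hN₃ N hA3
  rw [div_le_iff₀ hη] at k3
  -- the two families
  have hfam : ∀ r : ℕ+, Wr (min δ1 δ0) L N r →
      (#(badC (datB s r) ε C b N \ S N) : ℝ) ≤ (N : ℝ) ^ (1 - b) := by
    intro r hW
    by_cases h2 : 2 ∈ (r : ℕ).primeFactors
    · exact hN₂ N hA2 (⟨r, by simp [h2]⟩ : Idx true) ⟨hW.1, hW.2.trans (min_le_left _ _)⟩
    · exact hN₄ N hA5 (⟨r, by simp [h2]⟩ : Idx false) ⟨hW.1, hW.2.trans (min_le_right _ _)⟩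
  have hdat : ∀ r : ℕ+, (datB s r).A = δ D r := by
    intro r
    rw [datB_A]
    unfold δ Pool.Agent.TH893.BR.Bs.e Pool.Agent.TH893.BR.Bs.cf
    have h2 : 2 ∈ (r : ℕ).primeFactors ↔ Even (r : ℕ) := by
      rw [Nat.mem_primeFactors, even_iff_two_dvd]
      exact ⟨fun h => h.2.1, fun h => ⟨Nat.prime_two, h, r.ne_zero⟩⟩
    by_cases h : Even (r : ℕ)
    · rw [if_pos (h2.2 h), if_pos h]
      rfl
    · rw [if_neg (fun h' => h (h2.1 h')), if_neg h, one_mul]
      rfl
  set Bd := (Finset.Icc 1 N).filter (fun m : ℕ => ∃ r ∈ E,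
        ∃ x : ℕ, ((N : ℝ) ^ C ≤ x ∧ (x : ℝ) ≤ Real.exp ((N : ℝ) ^ (b / 2))) ∧
          ε * (Nat.primeCounting x : ℝ) <
            |(P B r m x : ℝ) - δ D r * (Nat.primeCounting x : ℝ)|) with hBd
  set F : ℕ → Finset ℕ := fun r => if h : 0 < r then badC (datB s ⟨r, h⟩) ε C b N \ S N else ∅ with hF
  have hsub : Bd ⊆ S N ∪ E.biUnion F := by
    intro m hm
    rw [hBd, mem_filter] at hm
    obtain ⟨hmI, r, hrE, x, ⟨hx1, hx2⟩, hx3⟩ := hm
    by_cases hmS : m ∈ S N
    · exact mem_union_left _ hmS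
    · apply mem_union_right
      rw [mem_biUnion]
      refine ⟨r, hrE, ?_⟩
      have hr0 : 0 < r := (hE r hrE).1
      simp only [hF]
      rw [dif_pos hr0, Finset.mem_sdiff, badC, mem_filter]
      refine ⟨⟨hmI, x, ?_, ?_, ?_⟩, hmS⟩
      · rw [← Real.log_rpow hN0]
        exact Real.log_le_log (by positivity) hx1
      · have hx0 : (0 : ℝ) < x := lt_of_lt_of_le (by positivity) hx1
        rw [Real.log_le_iff_le_exp hx0]
        refine hx2.trans (Real.exp_le_exp.2 ?_)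
        exact Real.rpow_le_rpow_of_exponent_le hN1 (by linarith)
      · have e : P B r m x = cntE (datB s ⟨r, hr0⟩) m x := by
          unfold P cntE
          apply congrArg Finset.card
          apply Finset.filter_congr_decidable _ _ _ |>.symm.trans
          apply Finset.filter_congr
          intro p _
          rw [datB_Q]
          push_cast
          rfl
        have e2 : (datB s ⟨r, hr0⟩).A = δ D r := hdat ⟨r, hr0⟩
        rw [← e, e2]
        exact hx3
  have h4 := (card_le_card hsub).trans ((card_union_le _ _).trans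
    (Nat.add_le_add_left card_biUnion_le _))
  have h5 : (#Bd : ℝ) ≤ (#(S N) : ℝ) + ∑ r ∈ E, (#(F r) : ℝ) := by
    exact_mod_cast h4
  have h6 : ∑ r ∈ E, (#(F r) : ℝ) ≤ (N : ℝ) ^ (b / 2) * (N : ℝ) ^ (1 - b) := by
    calc ∑ r ∈ E, (#(F r) : ℝ)
        ≤ ∑ r ∈ E, (N : ℝ) ^ (1 - b) := by
          refine sum_le_sum fun r hr => ?_
          have hr0 : 0 < r := (hE r hr).1
          simp only [hF]
          rw [dif_pos hr0]
          exact hfam ⟨r, hr0⟩ (hE r hr).2
      _ = (E.card : ℝ) * (N : ℝ) ^ (1 - b) := by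
          rw [sum_const, nsmul_eq_mul]
      _ ≤ _ := by gcongr
  have h8 : (N : ℝ) ^ (b / 2) * (N : ℝ) ^ (1 - b) ≤ η / 2 * N := by
    have h9 : (N : ℝ) = (N : ℝ) ^ (b / 2) * (N : ℝ) ^ (1 - b) * (N : ℝ) ^ (b / 2) := by
      rw [← Real.rpow_add hN0, ← Real.rpow_add hN0]
      ring_nf
      simp
    have h10 : 0 < (N : ℝ) ^ (b / 2) * (N : ℝ) ^ (1 - b) := by positivity
    calc (N : ℝ) ^ (b / 2) * (N : ℝ) ^ (1 - b)
        = ((N : ℝ) ^ (b / 2) * (N : ℝ) ^ (1 - b)) * 1 := by ring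
      _ ≤ ((N : ℝ) ^ (b / 2) * (N : ℝ) ^ (1 - b)) * (η / 2 * (N : ℝ) ^ (b / 2)) := by
          gcongr
          linarith
      _ = η / 2 * ((N : ℝ) ^ (b / 2) * (N : ℝ) ^ (1 - b) * (N : ℝ) ^ (b / 2)) := by ring
      _ = η / 2 * N := by rw [← h9]
  linarith

end Pool.Agent.Results.MP_991e92_nt.TwistedByPowers
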