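import Mathlib
import Pool.Agent.TH957.FamPrimesB
import Pool.Agent.W171.EP.PrimesAll

set_option autoImplicit false

/-! # The bases `B (m q) ^ r`, `q` a prime: the fixed base `B` twisted by `r`-th powers of almost all
primes, with a power-saving exceptional set, for every multiplier and for many exponents at once

Let `B` be an integer as in the problem: it is not a perfect power (so `B ≠ 0, 1, -1`) and its squarefree
part `D` satisfies `D ≡ 1 mod 4`.  For the primes `l ∣ r` the number `B n ^ r` is an `l`-th power residue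
modulo `p` if and only if `B` is.  So the family interpolates between the average over all bases
(`r = 1`) and the single base `B` (`r` divisible by `p - 1` for all `p ≤ x`).

Let `A = ∏_p (1 - 1 / (p (p - 1)))` be Artin's constant and let `δ D r` be `A` for odd `r` and
`(1 - μ(|D|) ∏_{q ∣ D} 1 / (q² - q - 1)) A`, the density of the problem for the base `B`, for even `r`.
Let `P B r n x` be the number of primes `p ≤ x` modulo which `B n ^ r` is a primitive root.

Let `0 < α < 1 / 4`, `1 / 2 + 2 α < θ < 1` and `C > 1` with `θ (1 - θ) < C (2 θ - 1)` (any `C > 1` if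
`θ ≥ 0.6181`).  There is `b > 0` such that for every such `B` and every `ε > 0` there is `δ₀ > 0` such
that for every `L` and all large `y`: for EVERY integer `m` with `1 ≤ m ≤ exp (√y)` and every set `E` of
at most `y ^ b` exponents `r`, each with at most `y ^ (1 / 4)` prime factors and with
`∑_{l ∣ r, l > L} 1 / l ≤ δ₀` (sum over primes), all but at most `y ^ θ` of the PRIMES `q ≤ y` satisfy
`|P B r (m q) x - δ D r π(x)| ≤ ε π(x)` for EVERY exponent `r ∈ E` and for EVERY `x` with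
`y ^ C ≤ x ≤ exp (y ^ α)`.

So for the even exponents the correction factor of the base `B` appears, for almost all primes `q`.
The result `TwistedByPowers` (helper893) treats the average over all integers `m ≤ N`, with an
exceptional set of `η N` integers.

Libraries: helper893 (Kummer degrees with entanglement for the base `B`), helper171 (uniformity in the
family, large sieve for the multiples of primes), helper401 (density theorem of Chebotarev), helper386,
helper771, helper981 (large sieve, local counts), helper923 (theorem of Brun and Titchmarsh). -/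

namespace Pool.Agent.Results.MP_991e92_nt.TwistedByPrimes

open Finset Filter Classical
open Pool.Agent.W171.EP (badG primesAll)
open Pool.Agent.W171.LG (Wr)
open Pool.Agent.TH893.BR (datB datB_A datB_Q Bs Idx)
open Pool.Agent.TH957.FamPrimesB (fam_primes_B)
open Pool.Agent.H771R4.SE (cntE Dat)

/-- the number of primes `p ≤ x` modulo which `B n ^ r` is a primitive root -/
noncomputable def P (B : ℤ) (r n x : ℕ) : ℕ :=
  ((Finset.range (x + 1)).filter (fun p : ℕ => p.Prime ∧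
    orderOf ((B * (n : ℤ) ^ r : ℤ) : ZMod p) = p - 1)).card

/-- Artin's constant -/
noncomputable def A : ℝ := ∏' p : Nat.Primes, (1 - 1 / (((p : ℕ) : ℝ) * (((p : ℕ) : ℝ) - 1)))

/-- the density: Artin's constant for odd `r`, the density of the problem for even `r` -/
noncomputable def δ (D : ℤ) (r : ℕ) : ℝ :=
  if Even r then (1 - ((ArithmeticFunction.moebius D.natAbs : ℤ) : ℝ) *
    ∏ q ∈ D.natAbs.primeFactors, (1 / ((q : ℝ) ^ 2 - (q : ℝ) - 1))) * A else A

theorem result (α θ C : ℝ) (hα : 0 < α) (hθ : 1 / 2 + 2 * α < θ) (hθ1 : θ < 1) (hC : 1 < C)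
    (hCθ : θ * (1 - θ) < C * (2 * θ - 1)) :
    ∃ b : ℝ, 0 < b ∧ ∀ B D k : ℤ, B = D * k ^ 2 → Squarefree D → D % 4 = 1 →
      (∀ h : ℕ, 1 < h → ∀ c : ℤ, c ^ h ≠ B) →
      ∀ ε : ℝ, 0 < ε → ∃ δ₀ : ℝ, 0 < δ₀ ∧ ∀ L : ℕ, ∃ y₀ : ℕ, ∀ y : ℕ, y₀ ≤ y →
      ∀ m : ℕ, 1 ≤ m → (m : ℝ) ≤ Real.exp (√(y : ℝ)) →
      ∀ E : Finset ℕ, (E.card : ℝ) ≤ (y : ℝ) ^ b →
        (∀ r ∈ E, 1 ≤ r ∧ (r.primeFactors.card : ℝ) ≤ (y : ℝ) ^ (1 / 4 : ℝ) ∧
          ∑ l ∈ r.primeFactors.filter (fun l : ℕ => L < l), (1 / (l : ℝ)) ≤ δ₀) →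
        (((Finset.range (y + 1)).filter (fun q : ℕ => q.Prime ∧ ∃ r ∈ E,
          ∃ x : ℕ, ((y : ℝ) ^ C ≤ x ∧ (x : ℝ) ≤ Real.exp ((y : ℝ) ^ α)) ∧
            ε * (Nat.primeCounting x : ℝ) <
              |(P B r (m * q) x : ℝ) - δ D r * (Nat.primeCounting x : ℝ)|)).card : ℝ) ≤
          (y : ℝ) ^ θ := by
  obtain ⟨θ', hθ', hall⟩ := primesAll α θ C hα hθ hθ1 hC hCθ
  set b : ℝ := (θ - θ') / 2 with hbdef
  have hb : 0 < b := by rw [hbdef]; linarith
  refine ⟨b, hb, fun B D k hB hD h4 hpw ε hε => ?_⟩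
  have hk : k ≠ 0 := by
    rintro rfl
    exact hpw 2 one_lt_two 0 (by rw [hB]; ring)
  let s : Bs := ⟨B, D, k, hB, hD, h4, hk, hpw⟩
  obtain ⟨δ1, hδ1, hfam1⟩ := fam_primes_B s true C hC α θ' hall ε hε
  obtain ⟨δ0, hδ0, hfam0⟩ := fam_primes_B s false C hC α θ' hall ε hε
  refine ⟨min δ1 δ0, lt_min hδ1 hδ0, fun L => ?_⟩
  obtain ⟨N₂, hN₂⟩ := hfam1 L
  obtain ⟨N₄, hN₄⟩ := hfam0 L
  have hpow : ∀ᶠ y : ℕ in atTop, 2 ≤ (y : ℝ) ^ b :=
    ((tendsto_rpow_atTop hb).comp tendsto_natCast_atTop_atTop).eventually_ge_atTop _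
  obtain ⟨N₃, hN₃⟩ := eventually_atTop.1 hpow
  refine ⟨max N₃ (max (max N₂ N₄) 1), fun y hy m hm hmy E hEc hE => ?_⟩
  have hA3 : N₃ ≤ y := (le_max_left _ _).trans hy
  have hA2 : N₂ ≤ y := (le_max_left _ _).trans ((le_max_left _ _).trans
    ((le_max_right _ _).trans hy))
  have hA5 : N₄ ≤ y := (le_max_right _ _).trans ((le_max_left _ _).trans
    ((le_max_right _ _).trans hy))
  have hA4 : 1 ≤ y := (le_max_right _ _).trans ((le_max_right _ _).trans hy)
  have hy1 : (1 : ℝ) ≤ y := by exact_mod_cast hA4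
  have hy0 : (0 : ℝ) < y := by linarith
  have hm0 : (0 : ℝ) < m := by exact_mod_cast hm
  have hml : Real.log m ≤ √(y : ℝ) := by
    rw [Real.log_le_iff_le_exp hm0]
    exact hmy
  have k3 := hN₃ y hA3
  -- the two families
  have hfam : ∀ r : ℕ+, Wr (min δ1 δ0) L y r →
      (#(badG (datB s r) ε (C * Real.log y) ((y : ℝ) ^ α) m y) : ℝ) ≤ 2 * (y : ℝ) ^ θ' := by
    intro r hW
    by_cases h2 : 2 ∈ (r : ℕ).primeFactors
    · exact hN₂ y hA2 (⟨r, by simp [h2]⟩ : Idx true) ⟨hW.1, hW.2.trans (min_le_left _ _)⟩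
        m hm hml
    · exact hN₄ y hA5 (⟨r, by simp [h2]⟩ : Idx false) ⟨hW.1, hW.2.trans (min_le_right _ _)⟩
        m hm hml
  have hdat : ∀ r : ℕ+, (datB s r).A = δ D r := by
    intro r
    rw [datB_A]
    unfold δ Pool.Agent.TH893.BR.Bs.e Pool.Agent.TH893.BR.Bs.cf
    have h2 : 2 ∈ (r : ℕ).primeFactors ↔ Even (r : ℕ) := by
      rw [Nat.mem_primeFactors, even_iff_two_dvd]
      exact ⟨fun h => h.2.1, fun h => ⟨Nat.prime_two, h, r.ne_zero⟩⟩
    by_cases h : Even (r : ℕ)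
    · rw [if_pos (h2.2 h), if_pos h]
      rfl
    · rw [if_neg (fun h' => h (h2.1 h')), if_neg h, one_mul]
      rfl
  set Bd := (Finset.range (y + 1)).filter (fun q : ℕ => q.Prime ∧ ∃ r ∈ E,
        ∃ x : ℕ, ((y : ℝ) ^ C ≤ x ∧ (x : ℝ) ≤ Real.exp ((y : ℝ) ^ α)) ∧
          ε * (Nat.primeCounting x : ℝ) <
            |(P B r (m * q) x : ℝ) - δ D r * (Nat.primeCounting x : ℝ)|) with hBd
  set F : ℕ → Finset ℕ := fun r =>
    if h : 0 < r then badG (datB s ⟨r, h⟩) ε (C * Real.log y) ((y : ℝ) ^ α) m y else ∅ with hF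
  have hsub : Bd ⊆ E.biUnion F := by
    intro q hq
    rw [hBd, mem_filter] at hq
    obtain ⟨hqr, hqp, r, hrE, x, ⟨hx1, hx2⟩, hx3⟩ := hq
    rw [mem_biUnion]
    refine ⟨r, hrE, ?_⟩
    have hr0 : 0 < r := (hE r hrE).1
    simp only [hF]
    rw [dif_pos hr0, badG, mem_filter]
    refine ⟨?_, x, ?_, ?_, ?_⟩
    · rw [Pool.Agent.H386R2.Artin.PP, mem_filter]
      exact ⟨hqr, hqp⟩
    · rw [← Real.log_rpow hy0]
      exact Real.log_le_log (by positivity) hx1
    · have hx0 : (0 : ℝ) < x := lt_of_lt_of_le (by positivity) hx1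
      rw [Real.log_le_iff_le_exp hx0]
      exact hx2
    · have e : P B r (m * q) x = cntE (datB s ⟨r, hr0⟩) (m * q) x := by
        unfold P cntE
        apply congrArg Finset.card
        apply Finset.filter_congr_decidable _ _ _ |>.symm.trans
        apply Finset.filter_congr
        intro p _
        have hQ : (datB s ⟨r, hr0⟩).Q p ((m * q : ℕ) : ZMod p) ↔
            orderOf (((B : ℤ) : ZMod p) * ((m * q : ℕ) : ZMod p) ^ r) = p - 1 :=
          datB_Q s ⟨r, hr0⟩ p _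
        have hc : ((B * ((m * q : ℕ) : ℤ) ^ r : ℤ) : ZMod p) =
            ((B : ℤ) : ZMod p) * ((m * q : ℕ) : ZMod p) ^ r := by
          push_cast
          rfl
        exact and_congr_right fun _ => (by rw [hc]; exact hQ.symm)
      have e2 : (datB s ⟨r, hr0⟩).A = δ D r := hdat ⟨r, hr0⟩
      rw [← e, e2]
      exact hx3
  have h4 := (card_le_card hsub).trans card_biUnion_le
  have h5 : (#Bd : ℝ) ≤ ∑ r ∈ E, (#(F r) : ℝ) := by exact_mod_cast h4
  have h6 : ∑ r ∈ E, (#(F r) : ℝ) ≤ (y : ℝ) ^ b * (2 * (y : ℝ) ^ θ') := by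
    calc ∑ r ∈ E, (#(F r) : ℝ)
        ≤ ∑ r ∈ E, 2 * (y : ℝ) ^ θ' := by
          refine sum_le_sum fun r hr => ?_
          have hr0 : 0 < r := (hE r hr).1
          simp only [hF]
          rw [dif_pos hr0]
          exact hfam ⟨r, hr0⟩ (hE r hr).2
      _ = (E.card : ℝ) * (2 * (y : ℝ) ^ θ') := by
          rw [sum_const, nsmul_eq_mul]
      _ ≤ _ := by gcongr
  refine h5.trans (h6.trans ?_)
  have h7 : (y : ℝ) ^ θ = (y : ℝ) ^ b * ((y : ℝ) ^ b * (y : ℝ) ^ θ') := by
    rw [← Real.rpow_add hy0, ← Real.rpow_add hy0]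
    congr 1
    rw [hbdef]
    ring
  rw [h7]
  gcongr

end Pool.Agent.Results.MP_991e92_nt.TwistedByPrimes
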